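import Mathlib
import Pool.Agent.U174.AK.Stm

/-!
Project AK (helper174), package ULTH (helper7): ultrapowers of valued fields.
-/

set_option autoImplicit false

namespace Pool.Agent.U7.AK.ULTH

open IsLocalRing Polynomial Filter
open Pool.Agent.U174.AK

theorem t_ULT : S_ULT := by
  intro K _ O
  let l : Ultrafilter ℕ := hyperfilter ℕ
  let O' : ValuationSubring (Germ (l : Filter ℕ) K) :=
    { carrier := {g | g.LiftPred (· ∈ O)}
      mul_mem' := by
        intro a b
        refine Germ.inductionOn₂ a b fun x y hx hy => ?_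
        change Germ.LiftPred (· ∈ O) ((x : Germ (l : Filter ℕ) K)) at hx
        change Germ.LiftPred (· ∈ O) ((y : Germ (l : Filter ℕ) K)) at hy
        change Germ.LiftPred (· ∈ O) (((x * y : ℕ → K)) : Germ (l : Filter ℕ) K)
        rw [Germ.liftPred_coe] at hx hy ⊢
        filter_upwards [hx, hy] with j h1 h2 using O.mul_mem _ _ h1 h2
      one_mem' := by
        change Germ.LiftPred (· ∈ O) (((1 : ℕ → K)) : Germ (l : Filter ℕ) K)
        rw [Germ.liftPred_coe]
        exact Eventually.of_forall fun j => O.one_mem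
      add_mem' := by
        intro a b
        refine Germ.inductionOn₂ a b fun x y hx hy => ?_
        change Germ.LiftPred (· ∈ O) ((x : Germ (l : Filter ℕ) K)) at hx
        change Germ.LiftPred (· ∈ O) ((y : Germ (l : Filter ℕ) K)) at hy
        change Germ.LiftPred (· ∈ O) (((x + y : ℕ → K)) : Germ (l : Filter ℕ) K)
        rw [Germ.liftPred_coe] at hx hy ⊢
        filter_upwards [hx, hy] with j h1 h2 using O.add_mem _ _ h1 h2
      zero_mem' := by
        change Germ.LiftPred (· ∈ O) (((0 : ℕ → K)) : Germ (l : Filter ℕ) K)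
        rw [Germ.liftPred_coe]
        exact Eventually.of_forall fun j => O.zero_mem
      neg_mem' := by
        intro a
        refine Germ.inductionOn a fun x hx => ?_
        change Germ.LiftPred (· ∈ O) ((x : Germ (l : Filter ℕ) K)) at hx
        change Germ.LiftPred (· ∈ O) (((-x : ℕ → K)) : Germ (l : Filter ℕ) K)
        rw [Germ.liftPred_coe] at hx ⊢
        filter_upwards [hx] with j h1 using O.neg_mem _ h1
      mem_or_inv_mem' := by
        intro a
        refine Germ.inductionOn a fun x => ?_
        change Germ.LiftPred (· ∈ O) ((x : Germ (l : Filter ℕ) K)) ∨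
          Germ.LiftPred (· ∈ O) (((x⁻¹ : ℕ → K)) : Germ (l : Filter ℕ) K)
        rw [Germ.liftPred_coe, Germ.liftPred_coe, ← Ultrafilter.eventually_or]
        exact Eventually.of_forall fun j => O.mem_or_inv_mem (x j) }
  refine ⟨Germ (l : Filter ℕ) K, inferInstance, O', Germ.coeRingHom (l : Filter ℕ), ⟨?_, ?_, ?_⟩⟩
  · intro a
    refine Germ.inductionOn a fun x => ⟨x, rfl⟩
  · intro x
    change ((x : Germ (l : Filter ℕ) K)) = (((0 : ℕ → K)) : Germ (l : Filter ℕ) K) ↔ _
    rw [Germ.coe_eq]
    rfl
  · intro x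
    change Germ.LiftPred (· ∈ O) ((x : Germ (l : Filter ℕ) K)) ↔ _
    rw [Germ.liftPred_coe]

section
variable {K K' : Type} [Field K] [Field K'] {O : ValuationSubring K} {O' : ValuationSubring K'}
  {π : (ℕ → K) →+* K'}

/-- the map of the valuation rings -/
noncomputable def psi (h : Ult O O' π) : (ℕ → O) →+* O' where
  toFun x := ⟨π (fun j => (x j : K)), (h.mem _).2 (Eventually.of_forall fun j => (x j).2)⟩
  map_one' := Subtype.ext (map_one π)
  map_mul' x y := Subtype.ext (map_mul π (fun j => (x j : K)) (fun j => (y j : K)))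
  map_zero' := Subtype.ext (map_zero π)
  map_add' x y := Subtype.ext (map_add π (fun j => (x j : K)) (fun j => (y j : K)))

theorem psi_surj (h : Ult O O' π) : Function.Surjective (psi h) := by
  classical
  rintro ⟨y, hy⟩
  obtain ⟨x, rfl⟩ := h.surj y
  have hx := (h.mem x).1 hy
  refine ⟨fun j => if hj : x j ∈ O then ⟨x j, hj⟩ else 0, Subtype.ext ?_⟩
  change π _ = π x
  rw [← sub_eq_zero, ← map_sub, h.zero]
  filter_upwards [hx] with j hj
  simp [hj]

theorem psi_zero (h : Ult O O' π) (x : ℕ → O) :
    psi h x = 0 ↔ ∀ᶠ j in (hyperfilter ℕ : Filter ℕ), x j = 0 := by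
  have h1 : psi h x = 0 ↔ π (fun j => (x j : K)) = 0 := by
    rw [← Subtype.coe_inj]
    rfl
  rw [h1, h.zero]
  refine eventually_congr (Eventually.of_forall fun j => ?_)
  exact ZeroMemClass.coe_eq_zero

theorem psi_unit (h : Ult O O' π) (x : ℕ → O) :
    IsUnit (psi h x) ↔ ∀ᶠ j in (hyperfilter ℕ : Filter ℕ), IsUnit (x j) := by
  constructor
  · intro hx
    obtain ⟨y, hy⟩ := isUnit_iff_exists_inv.1 hx
    obtain ⟨y, rfl⟩ := psi_surj h y
    have : psi h (x * y - 1) = 0 := by rw [map_sub, map_mul, hy, map_one, sub_self]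
    rw [psi_zero] at this
    filter_upwards [this] with j hj
    refine isUnit_iff_exists_inv.2 ⟨y j, ?_⟩
    exact sub_eq_zero.1 hj
  · intro hx
    refine isUnit_iff_exists_inv.2 ⟨psi h (fun j => Ring.inverse (x j)), ?_⟩
    rw [← map_mul, ← sub_eq_zero, ← map_one (psi h), ← map_sub, psi_zero]
    filter_upwards [hx] with j hj
    change x j * Ring.inverse (x j) - 1 = 0
    rw [Ring.mul_inverse_cancel _ hj, sub_self]

theorem psi_max (h : Ult O O' π) (x : ℕ → O) :
    psi h x ∈ maximalIdeal O' ↔ ∀ᶠ j in (hyperfilter ℕ : Filter ℕ), x j ∈ maximalIdeal O := by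
  simp only [mem_maximalIdeal, mem_nonunits_iff]
  rw [psi_unit, Ultrafilter.eventually_not]

end

theorem t_UHEN : S_UHEN := by
  classical
  intro K K' _ _ O O' π h hO hchar
  refine ⟨⟨?_⟩, ?_⟩
  · intro f' hf' a₀ ha₀ hd
    obtain ⟨f, hf, -, hmon⟩ := lifts_and_natDegree_eq_and_monic
      (mem_lifts_of_surjective (f := psi h) (psi_surj h) f') hf'
    obtain ⟨b, rfl⟩ := psi_surj h a₀
    subst hf
    rw [eval_map_apply, psi_max] at ha₀
    rw [derivative_map, eval_map_apply, psi_unit] at hd
    -- coordinates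
    have hco : ∀ (g : (ℕ → O)[X]) (a : ℕ → O) (j : ℕ),
        (g.eval a) j = (g.map (Pi.evalRingHom (fun _ : ℕ => (O : Type)) j)).eval (a j) := by
      intro g a j
      have := eval_map_apply (Pi.evalRingHom (fun _ : ℕ => (O : Type)) j) (p := g) a
      exact this.symm
    have hex : ∀ᶠ j in (hyperfilter ℕ : Filter ℕ), ∃ a : O,
        (f.map (Pi.evalRingHom (fun _ : ℕ => (O : Type)) j)).IsRoot a ∧ a - b j ∈ maximalIdeal O := by
      filter_upwards [ha₀, hd] with j h1 h2
      rw [hco] at h1 h2
      refine hO.is_henselian _ (hmon.map _) (b j) h1 ?_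
      rwa [derivative_map]
    let a : ℕ → O := fun j => if hj : ∃ a : O,
        (f.map (Pi.evalRingHom (fun _ : ℕ => (O : Type)) j)).IsRoot a ∧ a - b j ∈ maximalIdeal O
      then hj.choose else 0
    refine ⟨psi h a, ?_, ?_⟩
    · rw [IsRoot.def, eval_map_apply, psi_zero]
      filter_upwards [hex] with j hj
      rw [hco]
      have : a j = hj.choose := dif_pos hj
      rw [this]
      exact hj.choose_spec.1
    · rw [← map_sub, psi_max]
      filter_upwards [hex] with j hj
      have : a j = hj.choose := dif_pos hj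
      rw [Pi.sub_apply, this]
      exact hj.choose_spec.2
  · refine charZero_of_inj_zero fun n hn => ?_
    by_contra hne
    have h1 : ((n : O') : O') ∈ maximalIdeal O' := by
      rw [← residue_eq_zero_iff, map_natCast]
      exact hn
    rw [← map_natCast (psi h) n, psi_max] at h1
    obtain ⟨j, hj⟩ := h1.exists
    have h2 : residue O ((n : O)) = 0 := by
      rw [residue_eq_zero_iff]
      exact hj
    rw [map_natCast] at h2
    exact hne (Nat.cast_eq_zero.1 h2)

end Pool.Agent.U7.AK.ULTH

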